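import Pool.Agent.H20.RT.Stmts

/-!
Row CHB of the board rt (MP_a315fd_nt): Chebyshev, from the variance VAR.
-/

set_option autoImplicit false

open Finset

namespace Pool.RT

theorem CHB_thm (hV : VARStmt) : CHBStmt := by
  intro h r t d hd hr ht
  have hvar := hV h d hd
  set A := (Finset.range (10 ^ h)).filter (fun n => t < dc h d n) with hA
  have h1 : ∀ n ∈ A, (900 * ((r : ℤ) * r)) ≤ (10 * (dc h d n : ℤ) - (h : ℤ)) ^ 2 := by
    intro n hn
    have hn' : t < dc h d n := (Finset.mem_filter.mp hn).2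
    have hx : (30 * (r : ℤ)) < 10 * (dc h d n : ℤ) - (h : ℤ) := by
      have e1 : h + 30 * r < 10 * dc h d n := by omega
      have e2 : ((h + 30 * r : ℕ) : ℤ) < ((10 * dc h d n : ℕ) : ℤ) := by exact_mod_cast e1
      push_cast at e2
      linarith
    have hr0 : (0 : ℤ) ≤ (r : ℤ) := Int.natCast_nonneg r
    nlinarith
  have h2 : (A.card : ℤ) * (900 * ((r : ℤ) * r)) ≤
      ∑ n ∈ Finset.range (10 ^ h), (10 * (dc h d n : ℤ) - (h : ℤ)) ^ 2 := by
    calc (A.card : ℤ) * (900 * ((r : ℤ) * r)) = ∑ n ∈ A, (900 * ((r : ℤ) * r)) := by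
          rw [Finset.sum_const, nsmul_eq_mul]
      _ ≤ ∑ n ∈ A, (10 * (dc h d n : ℤ) - (h : ℤ)) ^ 2 := Finset.sum_le_sum h1
      _ ≤ ∑ n ∈ Finset.range (10 ^ h), (10 * (dc h d n : ℤ) - (h : ℤ)) ^ 2 := by
          refine Finset.sum_le_sum_of_subset_of_nonneg (Finset.filter_subset _ _) ?_
          intro i _ _
          exact sq_nonneg _
  rw [hvar] at h2
  have hr2 : ((h : ℤ)) ≤ (r : ℤ) * r := by
    have : ((h : ℕ) : ℤ) < ((r * r : ℕ) : ℤ) := by exact_mod_cast hr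
    push_cast at this
    linarith
  have hpos : (0 : ℤ) < (r : ℤ) * r := by
    have e1 : 0 < r * r := by omega
    exact_mod_cast e1
  have hp : (0 : ℤ) < (10 : ℤ) ^ h := by positivity
  have h3 : (A.card : ℤ) * (900 * ((r : ℤ) * r)) ≤ 9 * ((r : ℤ) * r) * 10 ^ h := by
    have : (h : ℤ) * 10 ^ h ≤ ((r : ℤ) * r) * 10 ^ h := mul_le_mul_of_nonneg_right hr2 hp.le
    linarith
  have h4 : (100 * (A.card : ℤ)) * ((r : ℤ) * r) ≤ (10 : ℤ) ^ h * ((r : ℤ) * r) := by linarith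
  have h5 : 100 * (A.card : ℤ) ≤ (10 : ℤ) ^ h := le_of_mul_le_mul_right h4 hpos
  exact_mod_cast h5

end Pool.RT
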